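import Pool.Agent.PSS.StmtsG
import Pool.Agent.Helper85_AT3.LSB
import Pool.Agent.Helper66_AT3.Fnt

/-!
# Squad PSS, row IZX: the indices in a subgroup which contains the inertial group
-/

noncomputable section

namespace Pool.Agent.PSS.H60

open Pool.Agent.Helper51_AWC Pool.Agent.Helper79_WRA Pool.Agent.PP Pool.Agent.PP.KF
open Pool.Agent.PP.K9 Pool.Agent.PP.K9.H97 Pool.Agent.PP.H75 Pool.Agent.PP.T3 Pool.Agent.PP.T2
open Pool.Agent.PP.TB (Zd Star iz cz)

theorem sub_inf {G : Type} [Group G] (A B X : Subgroup G) :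
    A.subgroupOf X ⊓ B.subgroupOf X = (A ⊓ B).subgroupOf X := by
  ext t
  simp only [Subgroup.mem_inf, Subgroup.mem_subgroupOf]

theorem Cu_sub {G : Type} [Group G] (X : Subgroup G) (v : X) :
    (Cu v : Subgroup X) = (Cu (v : G)).subgroupOf X := by
  ext t
  rw [Subgroup.mem_subgroupOf]
  unfold Cu
  rw [Subgroup.mem_centralizer_singleton_iff, Subgroup.mem_centralizer_singleton_iff]
  constructor
  · intro h
    exact congrArg Subtype.val h
  · intro h
    exact Subtype.ext h

theorem izx : IzxStmt := by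
  intro ℓ F _ G _ _ e V γ hL X hTX
  have hCX : Subgroup.centralizer (V : Set G) ≤ X := (H66.cent_le_Tg hL).trans hTX
  have hVX : V ≤ X := by
    intro v hv
    apply hCX
    rw [Subgroup.mem_centralizer_iff]
    intro w hw
    exact hL.ab w hw v hv
  have hT : Tg (V.subgroupOf X) (fun t : X => γ t) = (Tg V γ).subgroupOf X := by
    rw [H85.Tg_eq hVX hCX hL.gam.supp, inf_eq_left.2 hTX]
  constructor
  · unfold Pool.Agent.PP.TB.iz
    rw [hT, H85.cent_eq hVX, sub_inf]
    exact Subgroup.relIndex_subgroupOf hTX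
  · intro v
    unfold Pool.Agent.PP.TB.cz
    rw [hT, H85.cent_eq hVX, Cu_sub, sub_inf, sub_inf]
    exact Subgroup.relIndex_subgroupOf (inf_le_left.trans hTX)

end Pool.Agent.PSS.H60
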