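import Pool.Agent.PSS.StmtsS4
import Pool.Agent.PSS.StmtsS0

/-!
# Squad PSS, row BLA: a violation of `blk` gives a local datum
-/

noncomputable section

namespace Pool.Agent.PSS.H60

open Pool.Agent.PFC (tw IsTv)
open Pool.Agent.PFD.D2b (FrR)
open Pool.Agent.PSS

section conj

variable {F V E A : Type} [Field F] [CommGroup V] [Group E] [Ring A] [Algebra F A]
  {φ : E →* MulAut V} {α : V →* A}

/-- `y` is a unit (with inverse `y'`) which induces `φ g` -/
structure UF (φ : E →* MulAut V) (α : V →* A) (g : E) (y y' : A) : Prop where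
  l : y * y' = 1
  r : y' * y = 1
  c : ∀ u, y * α u = α (φ g u) * y

theorem UF.c' {g : E} {y y' : A} (h : UF φ α g y y') (u : V) :
    y' * α (φ g u) = α u * y' := by
  calc y' * α (φ g u) = y' * (α (φ g u) * y) * y' := by
        rw [mul_assoc, mul_assoc, h.l, mul_one]
    _ = y' * (y * α u) * y' := by rw [h.c]
    _ = α u * y' := by rw [← mul_assoc, h.r, one_mul]

theorem UF.inv {g : E} {y y' : A} (h : UF φ α g y y') : UF φ α g⁻¹ y' y := by
  refine ⟨h.r, h.l, ?_⟩
  intro u
  have h1 := h.c' (φ g⁻¹ u)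
  have h2 : φ g (φ g⁻¹ u) = u := by
    rw [map_inv, MulAut.apply_inv_self]
  rwa [h2] at h1

theorem UF.mul {g k : E} {y y' z z' : A} (h : UF φ α g y y') (h' : UF φ α k z z') :
    UF φ α (g * k) (y * z) (z' * y') := by
  refine ⟨?_, ?_, ?_⟩
  · calc y * z * (z' * y') = y * (z * z') * y' := by simp only [mul_assoc]
      _ = 1 := by rw [h'.l, mul_one, h.l]
  · calc z' * y' * (y * z) = z' * (y' * y) * z := by simp only [mul_assoc]
      _ = 1 := by rw [h.r, mul_one, h'.r]
  · intro u
    rw [mul_assoc, h'.c, ← mul_assoc, h.c, mul_assoc, map_mul, MulAut.mul_apply]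

theorem UF.one : UF φ α 1 (1 : A) 1 := by
  refine ⟨one_mul 1, one_mul 1, ?_⟩
  intro u
  rw [one_mul, mul_one, map_one]
  rfl

theorem UF.hom {g : E} {y y' : A} (h : UF φ α g y y') (v : V) (m : A) :
    ((LinearMap.mulLeft F y).comp (LinearMap.mulRight F y')) (cw F α v m) =
      ((cw F α).comp (φ g).toMonoidHom) v
        (((LinearMap.mulLeft F y).comp (LinearMap.mulRight F y')) m) := by
  change y * (α v * (m * α v⁻¹) * y') = α (φ g v) * (y * (m * y') * α (φ g v)⁻¹)
  have h1 : α v⁻¹ * y' = y' * α (φ g v)⁻¹ := by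
    rw [← h.c' v⁻¹, map_inv]
  calc y * (α v * (m * α v⁻¹) * y') = (y * α v) * (m * (α v⁻¹ * y')) := by
        simp only [mul_assoc]
    _ = α (φ g v) * (y * (m * y') * α (φ g v)⁻¹) := by
        rw [h.c, h1]
        simp only [mul_assoc]

theorem UF.fx {g : E} {y y' : A} (h : UF φ α g y y') {R : Subgroup V} {m : A}
    (hm : m ∈ FxR (cw F α) R) :
    y * m * y' ∈ FxR (cw F α) (R.map (φ g).toMonoidHom) := by
  rw [FxR_map, mul_assoc]
  exact FxR_hom (L := (LinearMap.mulLeft F y).comp (LinearMap.mulRight F y'))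
    (fun v m => h.hom v m) hm

theorem UF.bk {g : E} {y y' : A} (h : UF φ α g y y') {R : Subgroup V} {m : A}
    (hm : m ∈ BKR (cw F α) R) :
    y * m * y' ∈ BKR (cw F α) (R.map (φ g).toMonoidHom) := by
  rw [BKR_map (cw F α) (f := (φ g).toMonoidHom) (φ g).injective R, mul_assoc]
  exact BKR_hom (L := (LinearMap.mulLeft F y).comp (LinearMap.mulRight F y'))
    (fun v m => h.hom v m) hm

theorem fx_top {R : Subgroup V} {m : A} (hm : m ∈ FxR (cw F α) ⊤) : m ∈ FxR (cw F α) R :=
  fun v _ => hm v (Subgroup.mem_top v)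

theorem map_top_eq (g : E) : (⊤ : Subgroup V).map (φ g).toMonoidHom = ⊤ :=
  Subgroup.map_top_of_surjective _ (φ g).surjective

end conj

theorem bla (hfco : S0.FcoStmt) (hfbk : S0.FbkStmt) (hftr : S0.FtrStmt) (hbki : S0.BkiStmt)
    (hbqx : S0.BqxStmt) : BlaStmt := by
  classical
  intro ℓ _ F V E A _ _ _ _ _ _ _ _ φ α hV hper huni Q e he heid hecn hetop heQ
  obtain ⟨Ω, _, _, b, c, hfr, _⟩ := hper
  have hℓ : (ℓ : F) = 0 := CharP.cast_eq_zero F ℓ
  letI actV : MulAction V Ω :=
    MulAction.compHom Ω (MonoidHom.prod (MonoidHom.id V) (MonoidHom.id V))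
  have hfr' : FrR (cw F α) b c :=
    ⟨fun g t => hfr.1 (g, g) t, fun g t n => hfr.2.1 (g, g) t n, hfr.2.2⟩
  have hco := hfco ℓ F V A Ω (cw F α) b c hℓ hV hfr'
  have hbk := hfbk F V A Ω (cw F α) b c hfr'
  have mono : ∀ {P R : Subgroup V}, P ≤ R → ∀ m ∈ BKR (cw F α) P, m ∈ FxR (cw F α) R →
      m ∈ BKR (cw F α) R := by
    intro P R hPR m hm hmR
    exact hbk R m hmR fun ω hω => hco P m hm ω fun h hh => hω h (hPR hh)
  -- the maximal subgroup
  obtain ⟨R, hRm⟩ : ∃ R : Subgroup V, Maximal (fun R => Q ≤ R ∧ e ∉ BKR (cw F α) R) R := by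
    have hne : {R : Subgroup V | Q ≤ R ∧ e ∉ BKR (cw F α) R}.Nonempty := ⟨Q, le_rfl, heQ⟩
    exact (Set.toFinite {R : Subgroup V | Q ≤ R ∧ e ∉ BKR (cw F α) R}).exists_maximal hne
  obtain ⟨⟨hQR, heR⟩, hmax⟩ := hRm
  have hgt : ∀ P : Subgroup V, R < P → e ∈ BKR (cw F α) P := by
    intro P hP
    by_contra hc
    exact hP.not_ge (hmax ⟨hQR.trans hP.le, hc⟩ hP.le)
  have hRtop : R ≠ ⊤ := by
    rintro rfl
    exact heR hetop
  have hid : e * e - e ∈ BKR (cw F α) R := by
    refine mono hQR _ heid ?_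
    have h1 : e * e ∈ FxR (cw F α) R := by
      rw [mem_cw]
      intro q hq
      have := mem_cw.1 (fx_top he (R := R)) q hq
      rw [← mul_assoc, this, mul_assoc, this, mul_assoc]
    exact Submodule.sub_mem _ h1 (fx_top he)
  have hfm : ∀ {P : Subgroup V} {a a' : A}, a ∈ FxR (cw F α) P → a' ∈ FxR (cw F α) P →
      a * a' ∈ FxR (cw F α) P := by
    intro P a a' ha ha'
    rw [mem_cw] at *
    intro q hq
    rw [← mul_assoc, ha q hq, mul_assoc, ha' q hq, mul_assoc]
  have hcn : ∀ a ∈ FxR (cw F α) R, e * a - a * e ∈ BKR (cw F α) R := by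
    intro a ha
    refine mono hQR _ (hecn a fun v hv => ha v (hQR hv)) ?_
    exact Submodule.sub_mem _ (hfm (fx_top he) ha) (hfm ha (fx_top he))
  -- the Brauer quotient
  obtain ⟨B, _, _, αB, β, hβ⟩ := hbqx F V A α R
  have βsub : ∀ a ∈ FxR (cw F α) R, ∀ a' ∈ FxR (cw F α) R, β (a - a') = β a - β a' := by
    intro a ha a' ha'
    have h1 := hβ.add (a - a') (Submodule.sub_mem _ ha ha') a' ha'
    rw [sub_add_cancel] at h1
    rw [h1, add_sub_cancel_right]
  have βeq : ∀ a ∈ FxR (cw F α) R, ∀ a' ∈ FxR (cw F α) R,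
      (β a = β a' ↔ a - a' ∈ BKR (cw F α) R) := by
    intro a ha a' ha'
    rw [← hβ.ker _ (Submodule.sub_mem _ ha ha'), βsub a ha a' ha', sub_eq_zero]
  -- the units
  have huni' : ∀ g : E, ∃ y y' : A, UF φ α g y y' := by
    intro g
    obtain ⟨y, y', h1, h2, h3⟩ := huni g
    exact ⟨y, y', h1, h2, h3⟩
  choose y y' hy using huni'
  have hNE : ∀ g ∈ NE φ R, R.map (φ g).toMonoidHom = R := fun g hg => hg
  -- conjugates of e
  have hconjfx : ∀ {g : E} {z z' : A}, UF φ α g z z' → ∀ {m : A}, m ∈ FxR (cw F α) ⊤ →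
      z * m * z' ∈ FxR (cw F α) ⊤ := by
    intro g z z' h m hm
    have := h.fx hm
    rwa [map_top_eq] at this
  have key : ∀ {g : E} {z z' w w' : A}, g ∈ NE φ R → UF φ α g z z' → UF φ α g w w' →
      β (z * e * z') = β (w * e * w') := by
    intro g z z' w w' hg hz hw
    have hu : UF φ α 1 (w' * z) (z' * w) := by
      have := hw.inv.mul hz
      rwa [inv_mul_cancel] at this
    have hufx : ∀ {a a' : A}, UF φ α 1 a a' → a ∈ FxR (cw F α) ⊤ := by
      intro a a' h
      rw [mem_cw]
      intro q _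
      rw [h.c, map_one]
      rfl
    have h1 : w' * z ∈ FxR (cw F α) ⊤ := hufx hu
    have h2 : z' * w ∈ FxR (cw F α) ⊤ := hufx (by simpa using hu.inv)
    have h3 : w * ((w' * z) * e * (z' * w)) * w' = z * e * z' := by
      calc w * ((w' * z) * e * (z' * w)) * w' = (w * w') * z * e * z' * (w * w') := by
            simp only [mul_assoc]
        _ = z * e * z' := by rw [hw.l, one_mul, mul_one]
    have h4 : (w' * z) * e * (z' * w) - e ∈ BKR (cw F α) R := by
      have h5 := hcn (w' * z) (fx_top h1)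
      have h6 := (hbki F V A α R (z' * w) (fx_top h2) _ h5).2
      have h7 : (e * (w' * z) - w' * z * e) * (z' * w) =
          e * ((w' * z) * (z' * w)) - (w' * z) * e * (z' * w) := by
        rw [sub_mul]
        simp only [mul_assoc]
      rw [h7, hu.l, mul_one] at h6
      have := Submodule.neg_mem _ h6
      rwa [neg_sub] at this
    rw [βeq _ (fx_top (hconjfx hz he)) _ (fx_top (hconjfx hw he))]
    have h8 := hw.bk h4
    rw [hNE g hg] at h8
    have h9 : w * ((w' * z) * e * (z' * w) - e) * w' = z * e * z' - w * e * w' := by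
      rw [mul_sub, sub_mul, h3]
    rwa [h9] at h8
  -- central idempotents of `B`
  have hcen : ∀ {g : E} {z z' : A}, g ∈ NE φ R → UF φ α g z z' → ∀ x : B,
      β (z * e * z') * x = x * β (z * e * z') := by
    intro g z z' hg hz x
    obtain ⟨a, ha, rfl⟩ := hβ.surj x
    have h1 : z * e * z' ∈ FxR (cw F α) R := fx_top (hconjfx hz he)
    rw [← hβ.mul _ h1 _ ha, ← hβ.mul _ ha _ h1, βeq _ (hfm h1 ha) _ (hfm ha h1)]
    have hg' : g⁻¹ ∈ NE φ R := (NE φ R).inv_mem hg
    have h2 : z' * a * z ∈ FxR (cw F α) R := by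
      have := hz.inv.fx ha
      rwa [hNE _ hg'] at this
    have h3 := hz.bk (hcn _ h2)
    rw [hNE g hg] at h3
    have h4 : z * (e * (z' * a * z) - z' * a * z * e) * z' =
        z * e * z' * a - a * (z * e * z') := by
      rw [mul_sub, sub_mul]
      have e1 : z * (e * (z' * a * z)) * z' = z * e * z' * a := by
        calc z * (e * (z' * a * z)) * z' = z * e * z' * a * (z * z') := by
              simp only [mul_assoc]
          _ = _ := by rw [hz.l, mul_one]
      have e2 : z * (z' * a * z * e) * z' = a * (z * e * z') := by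
        calc z * (z' * a * z * e) * z' = (z * z') * (a * (z * e * z')) := by
              simp only [mul_assoc]
          _ = _ := by rw [hz.l, one_mul]
      rw [e1, e2]
    rwa [h4] at h3
  have hidm : ∀ {g : E} {z z' : A}, g ∈ NE φ R → UF φ α g z z' →
      β (z * e * z') * β (z * e * z') = β (z * e * z') := by
    intro g z z' hg hz
    have h1 : z * e * z' ∈ FxR (cw F α) R := fx_top (hconjfx hz he)
    rw [← hβ.mul _ h1 _ h1, βeq _ (hfm h1 h1) _ h1]
    have h3 := hz.bk hid
    rw [hNE g hg] at h3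
    have h4 : z * (e * e - e) * z' = z * e * z' * (z * e * z') - z * e * z' := by
      rw [mul_sub, sub_mul]
      have e1 : z * e * z' * (z * e * z') = z * (e * e) * z' := by
        calc z * e * z' * (z * e * z') = z * e * (z' * z) * e * z' := by
              simp only [mul_assoc]
          _ = z * (e * e) * z' := by
              rw [hz.r, mul_one]
              simp only [mul_assoc]
      rw [e1]
    rwa [h4] at h3
  -- the elements of the centre of `B`
  let N := NE φ R
  let f : N → Subring.center B := fun h => ⟨β (y h * e * y' h), by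
    rw [Subring.mem_center_iff]
    intro x
    exact (hcen h.2 (hy h) x).symm⟩
  have hf : ∀ h : N, ((f h : Subring.center B) : B) = β (y h * e * y' h) := fun h => rfl
  have hff : ∀ h, f h * f h = f h := by
    intro h
    apply Subtype.ext
    exact hidm h.2 (hy h)
  -- the product
  let L : List N := (Finset.univ : Finset N).toList
  have hLprod : ∀ g : N → Subring.center B, (L.map g).prod = ∏ h, g h := by
    intro g
    exact Finset.prod_map_toList _ _
  have hP1 : ∀ (z z' : N → A), (∀ h, z h * z' h = 1) → (∀ h, z' h * z h = 1) →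
      (∀ h, z h * e * z' h ∈ FxR (cw F α) ⊤) → ∀ M : List N,
      (M.map fun h => 1 - z h * e * z' h).prod ∈ FxR (cw F α) ⊤ := by
    intro z z' _ _ hz M
    induction M with
    | nil =>
      rw [List.map_nil, List.prod_nil, mem_cw]
      intro q _
      rw [mul_one, one_mul]
    | cons a M ih =>
      rw [List.map_cons, List.prod_cons]
      refine hfm (Submodule.sub_mem _ ?_ (hz a)) ih
      rw [mem_cw]
      intro q _
      rw [mul_one, one_mul]
  have hone : ∀ {P : Subgroup V}, (1 : A) ∈ FxR (cw F α) P := by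
    intro P
    rw [mem_cw]
    intro q _
    rw [mul_one, one_mul]
  have hβP : ∀ (z z' : N → A) (g : N → Subring.center B),
      (∀ h, z h * e * z' h ∈ FxR (cw F α) ⊤) →
      (∀ h, β (z h * e * z' h) = (g h : B)) → (∀ h, z h * z' h = 1) →
      (∀ h, z' h * z h = 1) → ∀ M : List N,
      β ((M.map fun h => 1 - z h * e * z' h).prod) =
        (((M.map fun h => 1 - g h).prod : Subring.center B) : B) := by
    intro z z' g hz hg h1 h2 M
    induction M with
    | nil =>
      rw [List.map_nil, List.prod_nil, List.map_nil, List.prod_nil, hβ.one]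
      rfl
    | cons a M ih =>
      rw [List.map_cons, List.prod_cons, List.map_cons, List.prod_cons,
        hβ.mul _ (Submodule.sub_mem _ hone (fx_top (hz a))) _ (fx_top (hP1 z z' h1 h2 hz M)),
        ih, βsub _ hone _ (fx_top (hz a)), hβ.one, hg a]
      rfl
  let P : A := (L.map fun h : N => 1 - y h * e * y' h).prod
  have hPfx : P ∈ FxR (cw F α) ⊤ :=
    hP1 (fun h => y h) (fun h => y' h) (fun h => (hy h).l) (fun h => (hy h).r)
      (fun h => hconjfx (hy h) he) L
  have hPβ : β P = ((∏ h, (1 - f h) : Subring.center B) : B) := by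
    rw [← hLprod]
    exact hβP (fun h => y h) (fun h => y' h) f (fun h => hconjfx (hy h) he) (fun h => rfl)
      (fun h => (hy h).l) (fun h => (hy h).r) L
  -- invariance
  have hPinv : ∀ g ∈ NE φ R, ∀ z z' : A, UF φ α g z z' → β (z * P * z') = β P := by
    intro g hg z z' hz
    have h1 : ∀ M : List N, z * (M.map fun h : N => 1 - y h * e * y' h).prod * z' =
        (M.map fun h : N => 1 - (z * y h) * e * (y' h * z')).prod := by
      intro M
      induction M with
      | nil =>
        rw [List.map_nil, List.prod_nil, List.map_nil, List.prod_nil, mul_one, hz.l]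
      | cons a M ih =>
        rw [List.map_cons, List.prod_cons, List.map_cons, List.prod_cons, ← ih]
        have h3 : z * (1 - y a * e * y' a) * z' = 1 - z * y a * e * (y' a * z') := by
          rw [mul_sub, sub_mul, mul_one, hz.l]
          simp only [mul_assoc]
        rw [← h3]
        calc z * ((1 - y a * e * y' a) * (M.map fun h : N => 1 - y h * e * y' h).prod) * z' =
            z * (1 - y a * e * y' a) * (1 * ((M.map fun h : N => 1 - y h * e * y' h).prod * z')) := by
              simp only [mul_assoc, one_mul]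
          _ = _ := by
              rw [← hz.r]
              simp only [mul_assoc]
    have h2 : ∀ h : N, UF φ α (g * h) (z * y h) (y' h * z') := fun h => hz.mul (hy h)
    rw [h1 L, hβP (fun h => z * y h) (fun h => y' h * z') (fun h => f (⟨g, hg⟩ * h))
      (fun h => hconjfx (h2 h) he) ?_ (fun h => (h2 h).l) (fun h => (h2 h).r) L, hLprod, hPβ]
    · refine congrArg _ ?_
      exact Fintype.prod_equiv (Equiv.mulLeft (⟨g, hg⟩ : N)) _ _ (fun h => rfl)
    · intro h
      rw [hf]
      exact key ((NE φ R).mul_mem hg h.2) (h2 h) (hy (g * h))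
  -- `1 - P` in the Brauer kernels of the larger subgroups
  have hPgt : ∀ R' : Subgroup V, R < R' → 1 - P ∈ BKR (cw F α) R' := by
    intro R' hR'
    have h1 : ∀ h : N, y h * e * y' h ∈ BKR (cw F α) R' := by
      intro h
      have h2 : R < R'.map (φ (h : E)⁻¹).toMonoidHom := by
        have h3 : (h : E)⁻¹ ∈ NE φ R := (NE φ R).inv_mem h.2
        have h4 := hNE _ h3
        constructor
        · conv_lhs => rw [← h4]
          exact Subgroup.map_mono hR'.le
        · intro h5
          apply hR'.not_ge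
          intro v hv
          have h6 : φ (h : E)⁻¹ v ∈ R := h5 ⟨v, hv, rfl⟩
          rw [← hNE _ h.2]
          refine ⟨φ (h : E)⁻¹ v, h6, ?_⟩
          change φ (h : E) (φ (h : E)⁻¹ v) = v
          rw [map_inv, MulAut.apply_inv_self]
      have h7 := (hy h).bk (hgt _ h2)
      have h8 : (R'.map (φ (h : E)⁻¹).toMonoidHom).map (φ (h : E)).toMonoidHom = R' := by
        rw [Subgroup.map_map]
        have h9 : (φ (h : E)).toMonoidHom.comp (φ (h : E)⁻¹).toMonoidHom = MonoidHom.id V := by
          ext v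
          change φ (h : E) (φ (h : E)⁻¹ v) = v
          rw [map_inv, MulAut.apply_inv_self]
        rw [h9, Subgroup.map_id]
      rwa [h8] at h7
    have h2 : ∀ M : List N, 1 - (M.map fun h : N => 1 - y h * e * y' h).prod ∈
        BKR (cw F α) R' := by
      intro M
      induction M with
      | nil =>
        rw [List.map_nil, List.prod_nil, sub_self]
        exact Submodule.zero_mem _
      | cons a M ih =>
        rw [List.map_cons, List.prod_cons, sub_mul, one_mul, sub_sub_eq_add_sub,
          add_sub_right_comm]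
        refine Submodule.add_mem _ ih ?_
        refine (hbki F V A α R' _ ?_ _ (h1 a)).2
        exact fx_top (hP1 (fun h => y h) (fun h => y' h) (fun h => (hy h).l)
          (fun h => (hy h).r) (fun h => hconjfx (hy h) he) M)
    exact h2 L
  -- the idempotent `1 - P`
  have hpfx : 1 - P ∈ FxR (cw F α) ⊤ := Submodule.sub_mem _ hone hPfx
  have hPid : β P * β P = β P := by
    rw [hPβ]
    have h1 : (∏ h, (1 - f h)) * (∏ h, (1 - f h)) = ∏ h, (1 - f h) := by
      rw [← Finset.prod_mul_distrib]
      refine Finset.prod_congr rfl fun h _ => ?_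
      have := hff h
      linear_combination this
    exact congrArg Subtype.val h1
  have hPcen : ∀ x : B, β P * x = x * β P := by
    intro x
    rw [hPβ]
    exact (Subring.mem_center_iff.1 (∏ h, (1 - f h) : Subring.center B).2 x).symm
  have hpβ : β (1 - P) = 1 - β P := by
    rw [βsub _ hone _ (fx_top hPfx), hβ.one]
  -- the trace
  obtain ⟨m, hm, S, hS, hmS⟩ := hftr ℓ F V A Ω (cw F α) b c hℓ hV hfr' R (1 - P) hpfx hPgt
  have hlt : R < ⊤ := lt_top_iff_ne_top.2 hRtop
  have he0 : (∑ s ∈ S, cw F α s m) ∈ BKR (cw F α) ⊤ :=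
    Submodule.subset_span ⟨R, S, m, hlt, hS, hm, rfl⟩
  have he0f : (∑ s ∈ S, cw F α s m) ∈ FxR (cw F α) ⊤ := BKR_le_FxR he0
  have hβ0 : β (∑ s ∈ S, cw F α s m) = 1 - β P := by
    rw [← hpβ]
    exact ((βeq _ (fx_top hpfx) _ (fx_top he0f)).2 hmS).symm
  have hcenP : ∀ x : B, (1 - β P) * x = x * (1 - β P) := by
    intro x
    rw [sub_mul, mul_sub, hPcen, one_mul, mul_one]
  refine ⟨R, ∑ s ∈ S, cw F α s m, m, S, ⟨hRtop, he0f, hS, hm, rfl, ?_, ?_, ?_, ?_⟩⟩
  · rw [← βeq _ (hfm (fx_top he0f) (fx_top he0f)) _ (fx_top he0f),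
      hβ.mul _ (fx_top he0f) _ (fx_top he0f), hβ0]
    rw [sub_mul, mul_sub, mul_sub, hPid, one_mul, mul_one, one_mul]
    abel
  · intro a ha
    rw [← βeq _ (hfm (fx_top he0f) ha) _ (hfm ha (fx_top he0f)),
      hβ.mul _ (fx_top he0f) _ ha, hβ.mul _ ha _ (fx_top he0f), hβ0]
    exact hcenP _
  · intro g hg z z' h1 h2 h3
    have hz : UF φ α g z z' := ⟨h1, h2, h3⟩
    rw [← βeq _ (fx_top (hconjfx hz he0f)) _ (fx_top he0f), hβ0]
    have h4 := hz.bk hmS
    rw [hNE g hg] at h4
    have h5 : z * (1 - P - ∑ s ∈ S, cw F α s m) * z' =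
        z * (1 - P) * z' - z * (∑ s ∈ S, cw F α s m) * z' := by
      rw [mul_sub, sub_mul]
    rw [h5, ← βeq _ (fx_top (hconjfx hz hpfx)) _ (fx_top (hconjfx hz he0f))] at h4
    rw [← h4]
    have h6 : z * (1 - P) * z' = 1 - z * P * z' := by
      rw [mul_sub, sub_mul, mul_one, h1]
    rw [h6, βsub _ hone _ (fx_top (hconjfx hz hPfx)), hβ.one, hPinv g hg z z' hz]
  · intro h0
    rw [← hβ.ker _ (fx_top he0f), hβ0] at h0
    have h1 : UF φ α (1 : E) (y 1) (y' 1) := hy 1
    have h2 : β (y 1 * e * y' 1) = β e := by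
      rw [key (NE φ R).one_mem h1 UF.one, one_mul, mul_one]
    have h3 : β P * β e = 0 := by
      rw [hPβ, ← h2]
      have h4 : (∏ h, (1 - f h)) * f 1 = 0 := by
        rw [← Finset.mul_prod_erase Finset.univ _ (Finset.mem_univ (1 : N))]
        have := hff 1
        linear_combination (-(∏ x ∈ Finset.univ.erase (1 : N), (1 - f x))) * this
      exact congrArg Subtype.val h4
    apply heR
    rw [← hβ.ker _ (fx_top he)]
    calc β e = (1 - β P) * β e := by rw [sub_mul, one_mul, h3, sub_zero]
      _ = 0 := by rw [h0, zero_mul]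

end Pool.Agent.PSS.H60
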