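import Pool.Agent.PSS.StmtsS4

/-!
# Squad PSS, row BLW: the condition `blk` follows from the case `Q = 1`
-/

noncomputable section

namespace Pool.Agent.PSS.H60

open Pool.Agent.PSS

theorem blw (bla : BlaStmt) (blb : BlbStmt) (ftz : FtzStmt) : BlwStmt := by
  intro ℓ _ F V E A _ _ _ _ _ _ _ _ φ α hV hE hfin hper huni hrt hbl
  refine ⟨hfin, hper, huni, hrt, ?_⟩
  intro Q e he h1 h2 h3
  by_contra h
  obtain ⟨R, e', m, S, hB⟩ := bla ℓ F V E A φ α hV hper huni Q e he h1 h2 h3 h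
  obtain ⟨lam, K, _, x, y, hRF, u, hu⟩ := hrt
  obtain ⟨z, hz1, hz2, hz3⟩ := blb ℓ F V E A K φ α lam x y u hV hE hper huni hRF hu R e' m S hB
  refine hz3 (ftz F A hfin (BKR (cw F α) ⊤) ?_ ?_ z hz2 hz1)
  · intro z hz a ha
    refine BKR_hom (L := LinearMap.mulLeft F a) ?_ hz
    intro v m
    change a * (α v * (m * α v⁻¹)) = α v * (a * m * α v⁻¹)
    rw [← mul_assoc, ha, mul_assoc, mul_assoc]
  · intro e he hee hea
    exact hbl e hee hea he

end Pool.Agent.PSS.H60
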