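import Pool.Agent.PSS.StmtsS4
import Pool.Agent.PSS.StmtsS1e

/-!
# Squad PSS: `DzfStmt` (hypothesis of TPF) from `DzdStmt` (block S1)
-/

open scoped BigOperators TensorProduct

noncomputable section

namespace Pool.Agent.PSS.H60

open Pool.Agent.PSS
open Pool.Agent.PFD.D2b (FrR)

theorem fin_of_frame {R G N T : Type} [CommRing R] [Group G] [AddCommGroup N] [Module R N]
    [Fintype T] [MulAction G T] {ρ : G →* (N →ₗ[R] N)} {b : T → N} {c : T → (N →ₗ[R] R)}
    (h : FrR ρ b c) : Module.Finite R N := by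
  classical
  let L : (T → R) →ₗ[R] N := ∑ t, (LinearMap.proj t).smulRight (b t)
  refine Module.Finite.of_surjective L ?_
  intro n
  refine ⟨fun t => c t n, ?_⟩
  conv_rhs => rw [← h.2.2 n]
  rw [LinearMap.sum_apply]
  rfl

theorem free_of_frame {R G N T : Type} [CommRing R] [IsDomain R] [IsPrincipalIdealRing R]
    [Group G] [AddCommGroup N] [Module R N]
    [Fintype T] [MulAction G T] {ρ : G →* (N →ₗ[R] N)} {b : T → N} {c : T → (N →ₗ[R] R)}
    (h : FrR ρ b c) : Module.Free R N := by
  classical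
  have := fin_of_frame h
  have hinj : Function.Injective (LinearMap.pi c : N →ₗ[R] (T → R)) := by
    rw [injective_iff_map_eq_zero]
    intro n hn
    rw [← h.2.2 n]
    refine Finset.sum_eq_zero fun t _ => ?_
    have h1 : c t n = 0 := congrFun hn t
    rw [h1, zero_smul]
  have : Module.IsTorsionFree R N := hinj.moduleIsTorsionFree _ (fun r n => map_smul _ r n)
  exact Module.free_of_finite_type_torsion_free'

theorem dzf (dzd : DzdStmt) (vzc : VzcStmt) : DzfStmt := by
  intro ℓ _ F V E A A' F' _ _ _ _ _ _ _ _ _ _ _ _ _ φ α Y W' α' hV hcy hfin hper hrt D hinj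
  obtain ⟨lam, K, _, x, y, hRF, u, hu⟩ := hrt
  obtain ⟨z, _, hz, _, _⟩ := vzc V E φ Y W' hcy
  obtain ⟨Ω, _, _, b, c, hfr⟩ := D.per
  have := fin_of_frame hfr
  have := free_of_frame hfr
  have : FaithfulSMul (PowerSeries F) F' := (faithfulSMul_iff_algebraMap_injective _ _).2 hinj
  refine dzd ℓ F V E A A' F' K φ W' z α α' lam x y u hper hRF ?_ hz D
  have h1 : rt x y 1 = ∑ k, x k * y k := by
    unfold rt
    simp only [mul_one]
  rw [h1]
  exact hu

end Pool.Agent.PSS.H60
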