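import Pool.Agent.PSS.StmtsS4
import Pool.Agent.Helper80_PSS.ZRT

/-!
# Squad PSS, row TPF: `dim Z` of the generic fibre of `N_W`
-/

open scoped BigOperators TensorProduct

noncomputable section

namespace Pool.Agent.PSS.H60

open Pool.Agent.PSS
open Pool.Agent.PFD.D2b (FrR)

theorem nw_fin {F V A B : Type} [Field F] [CommGroup V] [Finite V] [Ring A] [Algebra F A]
    [Ring B] [Algebra F B] {α : V →* A} {W : Subgroup V} (N : IsNW F α W B)
    (hA : FiniteDimensional F A) : FiniteDimensional F B := by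
  classical
  have : Finite (MulAut W) := Finite.of_injective (fun f => (f : W → W)) DFunLike.coe_injective
  have : Fintype (MulAut W) := Fintype.ofFinite _
  let L : (MulAut W → A) →ₗ[F] B := ∑ ε, (N.β ε) ∘ₗ LinearMap.proj ε
  have hL : Function.Surjective L := by
    intro b
    obtain ⟨f, _, rfl⟩ := N.spn b
    refine ⟨f, ?_⟩
    rw [finsum_eq_sum_of_fintype, LinearMap.sum_apply]
    rfl
  exact Module.Finite.of_surjective L hL

theorem red_X (F : Type) [Field F] :
    Red (PowerSeries.X : PowerSeries F) (PowerSeries.constantCoeff (R := F)) := by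
  constructor
  · intro a
    exact ⟨PowerSeries.C a, PowerSeries.constantCoeff_C a⟩
  · intro r
    rw [← PowerSeries.X_dvd_iff]
    rfl

theorem tpf (nrs : NrsStmt) (ndf : NdfStmt) (nfp : NfpStmt) (nrf : NrfStmt) (dzf : DzfStmt) :
    TpfStmt := by
  intro ℓ _ F V E A A' B F' _ _ _ _ _ _ _ _ _ _ _ _ _ _ _ φ α Y W' W α' hV hcy hWW hst hA N D
    hinj
  have : Fintype W' := Fintype.ofFinite _
  have hℓ : (ℓ : F) = 0 := CharP.cast_eq_zero F ℓ
  have hℓR : (ℓ : PowerSeries F) = 0 := by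
    rw [← map_natCast (PowerSeries.C (R := F)) ℓ, hℓ, map_zero]
  obtain ⟨N₁, hN₁⟩ := nrs F V A B α W W' N hWW
  obtain ⟨Ω, _, _, b, c, hfr⟩ := D.per
  obtain ⟨B', _, _, ⟨N'⟩⟩ := nwe α' hfr (W.subgroupOf W')
  obtain ⟨D', _⟩ := ndf ℓ (PowerSeries F) F W' A A' B B' PowerSeries.X
    (PowerSeries.constantCoeff (R := F)) (α.comp W'.subtype) α' (W.subgroupOf W') N₁ N' D hℓR
    (hV.to_subgroup W') (red_X F)
  have hnwh : N₁.nwh = N.nwh.comp W'.subtype := MonoidHom.ext hN₁
  rw [hnwh] at D'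
  obtain ⟨hper, _⟩ := nfp ℓ F V E A B φ α W N hℓ hV hst hA.per hA.uni
  obtain ⟨lam, K, _, x, y, hRF, u, hu⟩ := hA.rt
  obtain ⟨lam', K', _, x', y', hRF', hs⟩ :=
    nrf ℓ F V E A B K φ α W N lam x y hℓ hV hst hA.per hRF
  have hζ : ∀ a, a * ∑ k, x k * y k = (∑ k, x k * y k) * a := by
    intro a
    have h1 := S0.H80.zrt F V A K α lam x y hRF 1 (by
      rw [mem_cw]
      intro q _
      rw [mul_one, one_mul]) a
    simpa only [mul_one] using h1
  have hu' : (∑ k, x k * y k) * u = 1 := by rw [← hζ, hu]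
  have huc : ∀ a, u * a = a * u := by
    intro a
    calc u * a = u * a * ((∑ k, x k * y k) * u) := by rw [hu', mul_one]
      _ = u * (a * ∑ k, x k * y k) * u := by simp only [mul_assoc]
      _ = (u * ∑ k, x k * y k) * a * u := by rw [hζ]; simp only [mul_assoc]
      _ = a * u := by rw [hu, one_mul]
  have hfx : ∀ a : A, (∀ c, a * c = c * a) → a ∈ FxR (bw F α) (twW W (1 : MulAut W)) := by
    intro a ha
    rw [mem_tw]
    intro w
    rw [ha]
    rfl
  have hunit : N.β 1 u * ∑ k, x' k * y' k = 1 := by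
    rw [hs]
    have h1 := N.mul 1 1 u (hfx u huc) (∑ k, x k * y k) (hfx _ fun c => (hζ c).symm)
    rw [hu, mul_one] at h1
    rw [← h1, N.one]
  have h := dzf ℓ F V E B B' F' φ N.nwh Y W' N'.nwh hV hcy (nw_fin N hA.fin) hper
    ⟨lam', K', inferInstance, x', y', hRF', _, hunit⟩ D' hinj
  obtain ⟨N'', _⟩ := ngf (S := F') hfr N'
  exact ⟨_, _, _, N'', h⟩

end Pool.Agent.PSS.H60
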